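import Pool.Agent.H194Z.AdicAvg

set_option autoImplicit false

namespace Pool.Agent.Results.MP_68df70_lc.AHalfN

open Pool.Agent.H194Z.Adic

/-- The average `N`-adic complexity of the finite sequences of length `n` is `n / 2 + O(1)`, with
explicit bounds valid for all `N ≥ 2` and all `n`. -/
theorem result (N : ℕ) (hN : 2 ≤ N) (n : ℕ) :
    avg N n ≠ ⊤ ∧ n / 2 - Real.logb N 10 ≤ (avg N n).toReal ∧
      (avg N n).toReal ≤ n / 2 + Real.logb N (10 * (N + 1)) :=
  avg_main hN n

end Pool.Agent.Results.MP_68df70_lc.AHalfN
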